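import Pool.Agent.N776.PX.Nrm

/-!
# Project PX: choice of the integers, finite places
-/

set_option autoImplicit false

namespace Pool.Agent.N776.PX

open NumberField IsDedekindDomain Module Finset UniqueFactorizationMonoid

/-- pigeonhole -/
theorem pig {ι : Type} (s : Finset ι) (D : ℕ) (hs : s.card ≤ D) (Bad : ι → ℕ → Prop)
    (h : ∀ i ∈ s, ∀ u ≤ D, ∀ u' ≤ D, Bad i u → Bad i u' → u = u') :
    ∃ u ≤ D, ∀ i ∈ s, ¬ Bad i u := by
  classical
  by_contra hcon
  push Not at hcon
  obtain ⟨i0, hi0, _⟩ := hcon 0 (Nat.zero_le D)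
  have : Nonempty ι := ⟨i0⟩
  choose! f hf1 hf2 using hcon
  obtain ⟨u, hu, u', hu', hne, he⟩ :=
    Finset.exists_ne_map_eq_of_card_lt_of_maps_to (s := range (D + 1)) (t := s) (f := f)
      (by rw [card_range]; omega) (fun u hu => hf1 u (by
        have := mem_range.1 (Finset.mem_coe.1 hu); omega))
  have h1 : u ≤ D := by have := mem_range.1 hu; omega
  have h2 : u' ≤ D := by have := mem_range.1 hu'; omega
  exact hne (h _ (hf1 u h1) u h1 u' h2 (hf2 u h1) (he ▸ hf2 u' h2))

/-- sums of logarithms -/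
theorem sum_log {ι : Type} (s : Finset ι) (D d : ℕ) (hs : s.card ≤ D) (g h k : ι → ℝ) (C : ℝ)
    (hC : 1 ≤ C) (hg : ∀ i ∈ s, 0 < g i) (hh : ∀ i ∈ s, 0 < h i) (hk : ∀ i ∈ s, 0 < k i)
    (hgh : ∀ i ∈ s, g i ≤ C * h i) :
    ∑ i ∈ s, Real.log (g i ^ d / k i) ≤
      d * Real.log (∏ i ∈ s, h i) - Real.log (∏ i ∈ s, k i) + D * (d * Real.log C) := by
  have hC0 : 0 < C := by linarith
  have hlC : 0 ≤ Real.log C := Real.log_nonneg hC
  have h1 : ∀ i ∈ s, Real.log (g i ^ d / k i) ≤
      d * Real.log (h i) - Real.log (k i) + d * Real.log C := by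
    intro i hi
    rw [Real.log_div (pow_pos (hg i hi) d).ne' (hk i hi).ne', Real.log_pow]
    have h2 := Real.log_le_log (hg i hi) (hgh i hi)
    rw [Real.log_mul hC0.ne' (hh i hi).ne'] at h2
    have h3 := mul_le_mul_of_nonneg_left h2 (Nat.cast_nonneg (α := ℝ) d)
    linarith
  refine (sum_le_sum h1).trans ?_
  rw [sum_add_distrib, sum_sub_distrib, ← mul_sum, Real.log_prod (fun i hi => (hh i hi).ne'),
    Real.log_prod (fun i hi => (hk i hi).ne'), sum_const, nsmul_eq_mul]
  have h4 : (s.card : ℝ) ≤ D := by exact_mod_cast hs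
  have h5 := mul_le_mul_of_nonneg_right h4 (mul_nonneg (Nat.cast_nonneg (α := ℝ) d) hlC)
  linarith

section

variable {K M : Type} [Field K] [NumberField K] [Field M] [NumberField M] [Algebra K M]

theorem card_ov (v : HeightOneSpectrum (𝓞 K)) : (ov M v).card ≤ finrank K M := by
  classical
  have : v.asIdeal.IsMaximal := v.isMaximal
  have : NoZeroSMulDivisors (𝓞 K) (𝓞 M) := ⟨fun {c x} h => by
    rw [Algebra.smul_def, mul_eq_zero] at h
    rcases h with h | h
    · exact Or.inl ((map_eq_zero_iff _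
        (FaithfulSMul.algebraMap_injective (𝓞 K) (𝓞 M))).1 h)
    · exact Or.inr h⟩
  refine le_trans ?_ (Ideal.card_primesOverFinset_le_finrank (𝓞 M) K M v.ne_bot)
  rw [← Finset.card_image_of_injective (ov M v)
    (f := fun w : HeightOneSpectrum (𝓞 M) => w.asIdeal)
    (fun w w' h => HeightOneSpectrum.ext h)]
  refine card_le_card fun I hI => ?_
  obtain ⟨w, hw, rfl⟩ := mem_image.1 hI
  rw [IsDedekindDomain.mem_primesOverFinset_iff v.ne_bot]
  exact ⟨w.isPrime, ⟨(mem_ov.1 hw).symm⟩⟩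

theorem ov_nonempty (v : HeightOneSpectrum (𝓞 K)) : (ov M v).Nonempty := by
  have : v.asIdeal.IsMaximal := v.isMaximal
  obtain ⟨Q, hQ1, hQ2⟩ := Ideal.exists_maximal_ideal_liesOver_of_isIntegral
    (S := 𝓞 M) v.asIdeal
  have hQ : Q ≠ ⊥ := by
    rintro rfl
    have h1 := hQ2.over
    apply v.ne_bot
    rw [h1]
    exact Ideal.comap_bot_of_injective _ (FaithfulSMul.algebraMap_injective (𝓞 K) (𝓞 M))
  exact ⟨⟨Q, hQ1.isPrime, hQ⟩, mem_ov.2 hQ2.over.symm⟩

theorem mk_nat_le_one (w : HeightOneSpectrum (𝓞 M)) (n : ℕ) :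
    FinitePlace.mk w (n : M) ≤ 1 := by
  rw [FinitePlace.mk_apply, FinitePlace.norm_embedding]
  exact NumberField.HeightOneSpectrum.adicAbv_natCast_le_one M w n

theorem mk_nat_le_one' (w : HeightOneSpectrum (𝓞 M)) (n : ℕ) :
    FinitePlace.mk w (n : M) ≤ 1 := mk_nat_le_one w n

/-- integers are not too small above `v` -/
theorem nat_ge (v : HeightOneSpectrum (𝓞 K)) (D : ℕ) (hD : finrank K M ≤ D)
    (w : HeightOneSpectrum (𝓞 M)) (hw : w ∈ ov M v) (n : ℕ) (hn : n ≠ 0) :
    FinitePlace.mk v (n : K) ^ D ≤ FinitePlace.mk w (n : M) := by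
  classical
  have hnM : (n : M) ≠ 0 := Nat.cast_ne_zero.2 hn
  have h1 := pf v hnM
  have h2 : Algebra.norm K (n : M) = (n : K) ^ finrank K M := by
    have := Algebra.norm_algebraMap (S := M) (n : K)
    rwa [map_natCast] at this
  rw [h2, map_pow, ← Finset.mul_prod_erase _ _ hw] at h1
  have h3 : ∏ w' ∈ (ov M v).erase w, FinitePlace.mk w' (n : M) ≤ 1 :=
    Finset.prod_le_one (fun w' _ => apply_nonneg _ _) fun w' _ => mk_nat_le_one w' n
  have h4 : FinitePlace.mk v (n : K) ^ D ≤ FinitePlace.mk v (n : K) ^ finrank K M :=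
    pow_le_pow_of_le_one (apply_nonneg _ _) (mk_nat_le_one v n) hD
  refine h4.trans ?_
  rw [← h1]
  exact mul_le_of_le_one_right (apply_nonneg _ _) h3

end

/-- choice of the integer at a finite place -/
theorem loc_fin {K : Type} [Field K] [NumberField K] (v : HeightOneSpectrum (𝓞 K)) (D : ℕ) :
    ∃ c : ℝ, 0 < c ∧ c ≤ 1 ∧ ∀ (M : Type) [Field M] [NumberField M] [Algebra K M],
      finrank K M ≤ D → ∀ y : M, ∃ u ≤ D, ∀ w ∈ ov M v,
        c * max (FinitePlace.mk w y) 1 ≤ FinitePlace.mk w (y - (u : M)) := by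
  classical
  have hpos : ∀ k ∈ Icc 1 D, 0 < FinitePlace.mk v (k : K) ^ D := by
    intro k hk
    rw [mem_Icc] at hk
    have : (k : K) ≠ 0 := Nat.cast_ne_zero.2 (by omega)
    exact pow_pos (FinitePlace.pos_iff.2 this) D
  have hle : ∀ k ∈ Icc 1 D, FinitePlace.mk v (k : K) ^ D ≤ 1 := fun k _ =>
    pow_le_one₀ (apply_nonneg _ _) (mk_nat_le_one v k)
  obtain ⟨c, hc⟩ : ∃ c, c = ∏ k ∈ Icc 1 D, FinitePlace.mk v (k : K) ^ D := ⟨_, rfl⟩
  have hc0 : 0 < c := by rw [hc]; exact Finset.prod_pos hpos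
  have hc1 : c ≤ 1 := by
    rw [hc]
    exact Finset.prod_le_one (fun k hk => (hpos k hk).le) hle
  have hck : ∀ k, 1 ≤ k → k ≤ D → c ≤ FinitePlace.mk v (k : K) ^ D := by
    intro k hk1 hk2
    have hk : k ∈ Icc 1 D := mem_Icc.2 ⟨hk1, hk2⟩
    rw [hc, ← Finset.mul_prod_erase _ _ hk]
    refine mul_le_of_le_one_right (hpos k hk).le ?_
    exact Finset.prod_le_one (fun k hk => (hpos k (mem_of_mem_erase hk)).le)
      fun k hk => hle k (mem_of_mem_erase hk)
  refine ⟨c, hc0, hc1, ?_⟩
  intro M _ _ _ hD y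
  obtain ⟨u, hu, hu2⟩ := pig (ov M v) D ((card_ov v).trans hD)
    (fun w u => FinitePlace.mk w (y - (u : M)) < c * max (FinitePlace.mk w y) 1) (by
      intro w hw
      have key : ∀ u u' : ℕ, u < u' → u' ≤ D →
          FinitePlace.mk w (y - (u : M)) < c * max (FinitePlace.mk w y) 1 →
          FinitePlace.mk w (y - (u' : M)) < c * max (FinitePlace.mk w y) 1 → False := by
        intro u u' huu hu' h1 h2
        rcases le_or_gt (FinitePlace.mk w y) 1 with h3 | h3
        · rw [max_eq_right h3, mul_one] at h1 h2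
          have h4 : FinitePlace.mk w ((u' - u : ℕ) : M) < c := by
            have e : ((u' - u : ℕ) : M) = (y - (u : M)) + -(y - (u' : M)) := by
              rw [Nat.cast_sub huu.le]; ring
            rw [e]
            refine (FinitePlace.add_le _ _ _).trans_lt ?_
            rw [map_neg_eq_map]
            exact max_lt h1 h2
          have h5 := hck (u' - u) (by omega) (by omega)
          have h6 := nat_ge v D hD w hw (u' - u) (by omega)
          linarith
        · rw [max_eq_left h3.le] at h1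
          have h4 : FinitePlace.mk w y ≤ max (FinitePlace.mk w (y - (u : M)))
              (FinitePlace.mk w (u : M)) := by
            have := FinitePlace.add_le (FinitePlace.mk w) (y - (u : M)) (u : M)
            rwa [sub_add_cancel] at this
          have h5 := mk_nat_le_one w u
          have h6 : c * FinitePlace.mk w y ≤ FinitePlace.mk w y :=
            mul_le_of_le_one_left (apply_nonneg _ _) hc1
          rcases le_max_iff.1 h4 with h7 | h7
          · linarith
          · linarith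
      intro u hu u' hu' h1 h2
      rcases lt_trichotomy u u' with h3 | h3 | h3
      · exact (key u u' h3 hu' h1 h2).elim
      · exact h3
      · exact (key u' u h3 hu h2 h1).elim)
  exact ⟨u, hu, fun w hw => not_lt.1 (hu2 w hw)⟩

end Pool.Agent.N776.PX
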