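import Pool.Agent.N751.CV.Stm
import Pool.Agent.N459.DR.Red
import Pool.Agent.N776.PX.Pig

/-!
# Project PX, part LOC: the proximity function and norms
-/

set_option autoImplicit false

namespace Pool.Agent.N776.PX

open NumberField IsDedekindDomain Module Finset Polynomial
open Pool.Agent.N751.CV
open Pool.Agent.N459.DR (ab norm_emb card_ab prod_mk)

/-- choice of the integer at an infinite place -/
theorem loc_inf {K M : Type} [Field K] [NumberField K] [Field M] [NumberField M] [Algebra K M]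
    (σ : K →+* ℂ) (D : ℕ) (hD : finrank K M ≤ D) (y : M) :
    ∃ u ≤ D, ∀ τ ∈ ab M σ, max ‖τ y‖ 1 ≤ (4 * D + 4) * ‖τ (y - (u : M))‖ := by
  obtain ⟨u, hu, hu2⟩ := pig (ab M σ) D ((card_ab σ).trans_le hD)
    (fun τ u => ‖τ (y - (u : M))‖ < 1 / 2) (by
      intro τ _ u _ u' _ h1 h2
      by_contra hne
      have e : ((u : ℤ) - (u' : ℤ) : ℤ) ≠ 0 := by
        intro h; apply hne; omega
      have h3 : (1 : ℝ) ≤ ‖(((u : ℤ) - (u' : ℤ) : ℤ) : ℂ)‖ := by
        rw [Complex.norm_intCast]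
        exact_mod_cast Int.one_le_abs e
      have h4 : ((((u : ℤ) - (u' : ℤ) : ℤ)) : ℂ) = τ (y - (u' : M)) - τ (y - (u : M)) := by
        rw [← map_sub, sub_sub_sub_cancel_left, map_sub, map_natCast, map_natCast]
        push_cast
        rfl
      rw [h4] at h3
      have h5 := norm_sub_le (τ (y - (u' : M))) (τ (y - (u : M)))
      linarith)
  refine ⟨u, hu, fun τ hτ => ?_⟩
  have h1 := not_lt.1 (hu2 τ hτ)
  have hD0 : (0 : ℝ) ≤ D := Nat.cast_nonneg D
  have huD : (u : ℝ) ≤ D := by exact_mod_cast hu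
  refine max_le ?_ ?_
  · have h2 : ‖τ y‖ ≤ ‖τ (y - (u : M))‖ + u := by
      have e : τ y = τ (y - (u : M)) + (u : ℂ) := by
        rw [map_sub, map_natCast, sub_add_cancel]
      calc ‖τ y‖ = ‖τ (y - (u : M)) + (u : ℂ)‖ := by rw [← e]
        _ ≤ ‖τ (y - (u : M))‖ + ‖(u : ℂ)‖ := norm_add_le _ _
        _ = _ := by rw [Complex.norm_natCast]
    nlinarith
  · nlinarith

theorem finsum_eq {K M : Type} [Field K] [NumberField K] [Field M] [NumberField M] [Algebra K M]
    (S : Finset ℕ) (T : Finset (HeightOneSpectrum (𝓞 K)))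
    (hT : ∀ v, v ∈ T ↔ ∃ q ∈ S, (q : 𝓞 K) ∈ v.asIdeal) (G : HeightOneSpectrum (𝓞 M) → ℝ) :
    (∑ᶠ w : HeightOneSpectrum (𝓞 M), open Classical in
      if ∃ q ∈ S, (q : 𝓞 M) ∈ w.asIdeal then G w else 0) = ∑ v ∈ T, ∑ w ∈ ov M v, G w := by
  classical
  have h0 : ∀ (v : HeightOneSpectrum (𝓞 K)) (w : HeightOneSpectrum (𝓞 M)), w ∈ ov M v →
      ∀ q : ℕ, (q : 𝓞 K) ∈ v.asIdeal ↔ (q : 𝓞 M) ∈ w.asIdeal := by
    intro v w hw q
    rw [← mem_ov.1 hw, Ideal.under_def, Ideal.mem_comap, map_natCast]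
  have h1 : ∀ w : HeightOneSpectrum (𝓞 M), w ∈ ov M (HeightOneSpectrum.under (𝓞 K) w) :=
    fun w => mem_ov.2 rfl
  have hd : ((T : Finset (HeightOneSpectrum (𝓞 K))) :
      Set (HeightOneSpectrum (𝓞 K))).PairwiseDisjoint (fun v => ov M v) := by
    intro v _ v' _ hvv
    rw [Function.onFun, Finset.disjoint_left]
    intro w hw hw'
    exact hvv (HeightOneSpectrum.ext ((mem_ov.1 hw).symm.trans (mem_ov.1 hw')))
  rw [← Finset.sum_biUnion hd]
  rw [finsum_eq_sum_of_support_subset (s := T.biUnion fun v => ov M v)]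
  · refine sum_congr rfl fun w hw => ?_
    rw [mem_biUnion] at hw
    obtain ⟨v, hv, hw⟩ := hw
    obtain ⟨q, hq, hq2⟩ := (hT v).1 hv
    rw [if_pos ⟨q, hq, (h0 v w hw q).1 hq2⟩]
  · intro w hw
    rw [Function.mem_support] at hw
    rw [Finset.mem_coe, mem_biUnion]
    by_contra hcon
    apply hw
    rw [if_neg]
    rintro ⟨q, hq, hq2⟩
    apply hcon
    exact ⟨HeightOneSpectrum.under (𝓞 K) w, (hT _).2 ⟨q, hq, (h0 _ w (h1 w) q).2 hq2⟩, h1 w⟩

/-- **PX/LOC** -/
theorem t : StmLoc := by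
  classical
  intro K _ _ p hp S hS T hT D
  choose c hc0 hc1 hc using fun v : HeightOneSpectrum (𝓞 K) => loc_fin v D
  set d := p.natDegree with hd
  refine ⟨∑ σ : K →+* ℂ, (D : ℝ) * (d * Real.log (4 * D + 4)) +
    ∑ v ∈ T, (D : ℝ) * (d * Real.log (1 / c v)), ?_⟩
  intro M _ _ _ y hD hy
  have : Module.Finite K M := Module.Finite.of_restrictScalars_finite ℚ K M
  choose a ha1 ha2 using fun σ : K →+* ℂ => loc_inf (M := M) σ D hD y
  choose b hb1 hb2 using fun v : HeightOneSpectrum (𝓞 K) => hc v M hD y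
  have hD0 : (0 : ℝ) ≤ D := Nat.cast_nonneg D
  have hpa : ∀ σ : K →+* ℂ, ∀ τ ∈ ab M σ, 0 < ‖τ (y - (a σ : M))‖ := by
    intro σ τ hτ
    have h1 : (1 : ℝ) ≤ max ‖τ y‖ 1 := le_max_right _ _
    have h2 := h1.trans (ha2 σ τ hτ)
    by_contra h3
    have h4 : ‖τ (y - (a σ : M))‖ = 0 := le_antisymm (not_lt.1 h3) (norm_nonneg _)
    rw [h4, mul_zero] at h2
    linarith
  have hpb : ∀ (v : HeightOneSpectrum (𝓞 K)), ∀ w ∈ ov M v,
      0 < FinitePlace.mk w (y - (b v : M)) := by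
    intro v w hw
    have h1 : (1 : ℝ) ≤ max (FinitePlace.mk w y) 1 := le_max_right _ _
    have h2 := mul_le_mul_of_nonneg_left h1 (hc0 v).le
    have h3 := hb2 v w hw
    have h4 := hc0 v
    linarith
  have hna : ∀ σ, y - (a σ : M) ≠ 0 := by
    intro σ
    have hne : (ab M σ).Nonempty := by
      rw [← card_pos, card_ab]
      exact finrank_pos
    obtain ⟨τ, hτ⟩ := hne
    intro h
    have := hpa σ τ hτ
    rw [h, map_zero, norm_zero] at this
    exact lt_irrefl _ this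
  have hnb : ∀ v, y - (b v : M) ≠ 0 := by
    intro v
    obtain ⟨w, hw⟩ := ov_nonempty (M := M) v
    exact FinitePlace.pos_iff.1 (hpb v w hw)
  refine ⟨a, b, fun σ => ⟨ha1 σ, Algebra.norm_ne_zero_iff.2 (hna σ)⟩,
    fun v => ⟨hb1 v, Algebra.norm_ne_zero_iff.2 (hnb v)⟩, ?_⟩
  -- the infinite places
  have hinf : ∑ w : InfinitePlace M, (w.mult : ℝ) *
      Real.log (max (w y) 1 ^ d / w (aeval y p)) ≤
      ∑ σ : K →+* ℂ, (d * Real.log ‖σ (Algebra.norm K (y - (a σ : M)))‖ -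
        Real.log ‖σ (Algebra.norm K (aeval y p))‖) +
      ∑ σ : K →+* ℂ, (D : ℝ) * (d * Real.log (4 * D + 4)) := by
    have hF0 : ∀ w : InfinitePlace M, 0 < max (w y) 1 ^ d / w (aeval y p) := by
      intro w
      exact div_pos (pow_pos (lt_max_of_lt_right one_pos) d) (InfinitePlace.pos_iff.2 hy)
    have h1 := congrArg Real.log (prod_mk (M := M)
      (fun w : InfinitePlace M => max (w y) 1 ^ d / w (aeval y p)))
    rw [Real.log_prod (fun w _ => (pow_pos (hF0 w) _).ne'),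
      Real.log_prod (fun τ _ => (hF0 (InfinitePlace.mk τ)).ne')] at h1
    simp only [Real.log_pow] at h1
    rw [h1]
    have h2 : ∑ τ : M →+* ℂ, Real.log (max ((InfinitePlace.mk τ) y) 1 ^ d /
        (InfinitePlace.mk τ) (aeval y p)) =
        ∑ σ : K →+* ℂ, ∑ τ ∈ ab M σ, Real.log (max ‖τ y‖ 1 ^ d / ‖τ (aeval y p)‖) := by
      unfold ab
      rw [Finset.sum_fiberwise]
      rfl
    rw [h2, ← sum_add_distrib]
    refine sum_le_sum fun σ _ => ?_
    have h3 := sum_log (ab M σ) D d ((card_ab σ).trans_le hD) (fun τ => max ‖τ y‖ 1)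
      (fun τ => ‖τ (y - (a σ : M))‖) (fun τ => ‖τ (aeval y p)‖) (4 * D + 4) (by linarith)
      (fun τ _ => lt_max_of_lt_right one_pos) (hpa σ)
      (fun τ _ => norm_pos_iff.2 ((map_ne_zero τ).2 hy)) (ha2 σ)
    rw [← norm_prod, ← norm_prod, ← norm_emb, ← norm_emb] at h3
    exact h3
  have hfin : (∑ᶠ w : HeightOneSpectrum (𝓞 M), if ∃ q ∈ S, (q : 𝓞 M) ∈ w.asIdeal then
      Real.log (max (FinitePlace.mk w y) 1 ^ d / FinitePlace.mk w (aeval y p)) else 0) ≤
      ∑ v ∈ T, (d * Real.log (FinitePlace.mk v (Algebra.norm K (y - (b v : M)))) -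
        Real.log (FinitePlace.mk v (Algebra.norm K (aeval y p)))) +
      ∑ v ∈ T, (D : ℝ) * (d * Real.log (1 / c v)) := by
    have h1 := finsum_eq S T hT
      (fun w : HeightOneSpectrum (𝓞 M) => Real.log (max (FinitePlace.mk w y) 1 ^ d /
        FinitePlace.mk w (aeval y p)))
    rw [h1, ← sum_add_distrib]
    refine sum_le_sum fun v _ => ?_
    have h3 := sum_log (ov M v) D d ((card_ov v).trans hD)
      (fun w => max (FinitePlace.mk w y) 1)
      (fun w => FinitePlace.mk w (y - (b v : M))) (fun w => FinitePlace.mk w (aeval y p))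
      (1 / c v) ((one_le_div (hc0 v)).2 (hc1 v))
      (fun τ _ => lt_max_of_lt_right one_pos) (hpb v)
      (fun w _ => FinitePlace.pos_iff.2 hy) (by
        intro w hw
        have h4 := hb2 v w hw
        rw [one_div, ← div_eq_inv_mul, le_div_iff₀ (hc0 v), mul_comm]
        exact h4)
    rw [pf v (hnb v), pf v hy] at h3
    exact h3
  unfold prox
  rw [← hd]
  linarith

end Pool.Agent.N776.PX
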