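import Mathlib

/-!
# Project PX: finite places of a number field above a finite place and the norm
-/

set_option autoImplicit false

namespace Pool.Agent.N776.PX

open NumberField IsDedekindDomain Module Finset UniqueFactorizationMonoid

section

variable {K : Type} [Field K] [NumberField K] (M : Type) [Field M] [NumberField M] [Algebra K M]

/-- the primes above `v` -/
def Ov (v : HeightOneSpectrum (𝓞 K)) : Set (HeightOneSpectrum (𝓞 M)) :=
  {w | w.asIdeal.under (𝓞 K) = v.asIdeal}

omit [NumberField K] [NumberField M] in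
theorem map_ne (v : HeightOneSpectrum (𝓞 K)) :
    v.asIdeal.map (algebraMap (𝓞 K) (𝓞 M)) ≠ ⊥ := by
  rw [Ne, Ideal.map_eq_bot_iff_of_injective
    (FaithfulSMul.algebraMap_injective (𝓞 K) (𝓞 M))]
  exact v.ne_bot

theorem ov_fin (v : HeightOneSpectrum (𝓞 K)) : (Ov M v).Finite := by
  refine (Ideal.finite_factors (map_ne M v)).subset fun w hw => ?_
  rw [Set.mem_ofPred_eq, Ideal.dvd_iff_le, Ideal.map_le_iff_le_comap]
  exact (le_of_eq hw.symm)

/-- the finite set of the primes above `v` -/
noncomputable def ov (v : HeightOneSpectrum (𝓞 K)) : Finset (HeightOneSpectrum (𝓞 M)) :=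
  (ov_fin M v).toFinset

variable {M}

theorem mem_ov {v : HeightOneSpectrum (𝓞 K)} {w : HeightOneSpectrum (𝓞 M)} :
    w ∈ ov M v ↔ w.asIdeal.under (𝓞 K) = v.asIdeal := by
  rw [ov, Set.Finite.mem_toFinset]
  rfl

open Classical in
theorem ideal_prime (v : HeightOneSpectrum (𝓞 K)) (P : HeightOneSpectrum (𝓞 M)) :
    ∏ w ∈ ov M v, Ideal.absNorm w.asIdeal ^ (normalizedFactors P.asIdeal).count w.asIdeal =
      Ideal.absNorm v.asIdeal ^
        (normalizedFactors (Ideal.relNorm (𝓞 K) P.asIdeal)).count v.asIdeal := by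
  have hP : normalizedFactors P.asIdeal = {P.asIdeal} := by
    rw [normalizedFactors_irreducible P.irreducible, normalize_eq]
  rw [hP]
  have hmax : (P.asIdeal.under (𝓞 K)).IsMaximal :=
    Ideal.isMaximal_comap_of_isIntegral_of_isMaximal P.asIdeal
  obtain ⟨s, hs⟩ := Ideal.exists_relNorm_eq_pow_of_isPrime P.asIdeal (P.asIdeal.under (𝓞 K))
  by_cases h : P ∈ ov M v
  · rw [Finset.prod_eq_single P]
    · rw [Multiset.count_singleton_self, pow_one]
      rw [mem_ov.1 h] at hs
      have h1 : normalizedFactors (v.asIdeal ^ s) = s • {v.asIdeal} := by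
        rw [normalizedFactors_pow, normalizedFactors_irreducible v.irreducible, normalize_eq]
      rw [hs, h1, Multiset.count_nsmul, Multiset.count_singleton_self, mul_one, ← map_pow, ← hs,
        Ideal.absNorm_relNorm]
    · intro w _ hw
      rw [Multiset.count_singleton, if_neg, pow_zero]
      intro h2
      exact hw (HeightOneSpectrum.ext h2)
    · intro h2
      exact absurd h h2
  · rw [Finset.prod_eq_one]
    · rw [Multiset.count_eq_zero_of_notMem, pow_zero]
      intro h2
      have h3 := dvd_of_mem_normalizedFactors h2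
      rw [hs, Ideal.dvd_iff_le] at h3
      have h4 : P.asIdeal.under (𝓞 K) ≤ v.asIdeal := v.isPrime.le_of_pow_le h3
      exact h (mem_ov.2 (hmax.eq_of_le v.isPrime.ne_top h4))
    · intro w hw
      rw [Multiset.count_singleton, if_neg, pow_zero]
      intro h2
      apply h
      have h3 : w = P := HeightOneSpectrum.ext h2
      rwa [h3] at hw

open Classical in
theorem ideal_pf (v : HeightOneSpectrum (𝓞 K)) (I : Ideal (𝓞 M)) : I ≠ 0 →
    ∏ w ∈ ov M v, Ideal.absNorm w.asIdeal ^ (normalizedFactors I).count w.asIdeal =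
      Ideal.absNorm v.asIdeal ^
        (normalizedFactors (Ideal.relNorm (𝓞 K) I)).count v.asIdeal := by
  induction I using UniqueFactorizationMonoid.induction_on_prime with
  | h₁ => intro h; exact absurd rfl h
  | h₂ I hI =>
    intro _
    rw [Ideal.isUnit_iff] at hI
    subst hI
    rw [← Ideal.one_eq_top, map_one, normalizedFactors_one, normalizedFactors_one]
    simp only [Multiset.count_zero, pow_zero, Finset.prod_const_one]
  | h₃ I p hI hp ih =>
    intro _
    have hrI : Ideal.relNorm (𝓞 K) I ≠ 0 := fun h => hI (Ideal.relNorm_eq_bot_iff.1 h)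
    have hrp : Ideal.relNorm (𝓞 K) p ≠ 0 := fun h => hp.ne_zero (Ideal.relNorm_eq_bot_iff.1 h)
    rw [map_mul, normalizedFactors_mul hrp hrI, normalizedFactors_mul hp.ne_zero hI]
    simp only [Multiset.count_add, pow_add]
    rw [Finset.prod_mul_distrib, ih hI,
      ideal_prime v ⟨p, Ideal.isPrime_of_prime hp, hp.ne_zero⟩]

theorem mk_int (v : HeightOneSpectrum (𝓞 K)) {x : 𝓞 K} (hx : x ≠ 0) :
    FinitePlace.mk v (x : K) = ((open Classical in (Ideal.absNorm v.asIdeal ^
      (normalizedFactors (Ideal.span {x})).count v.asIdeal : ℕ) : ℝ))⁻¹ := by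
  classical
  have h1 := NumberField.HeightOneSpectrum.embedding_mul_absNorm K v hx
  have h2 : Ideal.span {x} ≠ 0 := by
    rw [Ne, Ideal.zero_eq_bot, Ideal.span_singleton_eq_bot]
    exact hx
  rw [HeightOneSpectrum.maxPowDividing_eq_pow_multiset_count _ h2, map_pow] at h1
  exact eq_inv_of_mul_eq_one_left h1

/-- the product formula above `v` -/
theorem pf_int (v : HeightOneSpectrum (𝓞 K)) {x : 𝓞 M} (hx : x ≠ 0) :
    ∏ w ∈ ov M v, FinitePlace.mk w (x : M) =
      FinitePlace.mk v (Algebra.norm K (x : M)) := by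
  classical
  have h1 : ((Algebra.intNorm (𝓞 K) (𝓞 M) x : 𝓞 K) : K) = Algebra.norm K (x : M) :=
    Algebra.algebraMap_intNorm (A := 𝓞 K) (K := K) (L := M) (B := 𝓞 M) x
  have h2 : Algebra.intNorm (𝓞 K) (𝓞 M) x ≠ 0 := Algebra.intNorm_ne_zero.2 hx
  have h3 : Ideal.span {x} ≠ 0 := by
    rw [Ne, Ideal.zero_eq_bot, Ideal.span_singleton_eq_bot]
    exact hx
  rw [← h1, mk_int v h2, ← Ideal.relNorm_singleton, ← ideal_pf v _ h3]
  push_cast
  rw [← Finset.prod_inv_distrib]
  refine Finset.prod_congr rfl fun w _ => ?_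
  rw [mk_int w hx]
  push_cast
  rfl

theorem pf (v : HeightOneSpectrum (𝓞 K)) {z : M} (hz : z ≠ 0) :
    ∏ w ∈ ov M v, FinitePlace.mk w z = FinitePlace.mk v (Algebra.norm K z) := by
  have : Module.Finite K M := Module.Finite.of_restrictScalars_finite ℚ K M
  obtain ⟨α, β, hβ, hy⟩ := IsFractionRing.div_surjective (𝓞 M) z
  have hβ0 : β ≠ 0 := nonZeroDivisors.ne_zero hβ
  have hβM : (β : M) ≠ 0 := fun h => hβ0 (RingOfIntegers.coe_eq_zero_iff.1 h)
  have hα0 : α ≠ 0 := by
    rintro rfl
    apply hz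
    rw [← hy, map_zero, zero_div]
  have hzβ : z * (β : M) = (α : M) := by
    rw [← hy]
    exact div_mul_cancel₀ _ hβM
  have h1 := pf_int v hα0
  have h2 := pf_int v hβ0
  rw [← hzβ, map_mul, map_mul, ← h2] at h1
  simp only [map_mul] at h1
  rw [Finset.prod_mul_distrib] at h1
  refine mul_right_cancel₀ ?_ h1
  refine Finset.prod_ne_zero_iff.2 fun w _ => ?_
  exact (FinitePlace.pos_iff.2 hβM).ne'

end

end Pool.Agent.N776.PX
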